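import Pool.Agent.Work.MP_b30479_gt.TBS.G2.WValD
import Pool.Agent.Work.MP_b30479_gt.TBS.VC.FStrip
import Pool.Agent.Work.MP_b30479_gt.TBS.G2.SEfD
import Pool.Agent.Work.MP_b30479_gt.TBS.NumI.LnAff
import Pool.Agent.Work.MP_b30479_gt.TBS.G2.Num.Fn

section

/-!
# Explicit values of `Re Fh` (`UU`) near `0`, with error bound
-/

namespace Pool.Agent.Work.MP_b30479_gtS.G2.Num

open VOL Complex Filter Topology Set

/-- the first derivative of `G0` -/
noncomputable def G1 (z : ℂ) : ℂ :=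
  log z + log (1 + z) + log (1 - z) + (Real.log (2 * Real.pi) : ℂ) - Zt 1 * z ^ 2 -
    Zt 2 / 2 * z ^ 4 - Zt 3 / 3 * z ^ 6

/-- explicit approximation of `Fh` near `0` -/
noncomputable def G0 (z : ℂ) : ℂ :=
  z * log z + (1 + z) * log (1 + z) - (1 - z) * log (1 - z) +
    ((Real.log (2 * Real.pi) : ℂ) - 3) * z - Zt 1 / 3 * z ^ 3 - Zt 2 / 10 * z ^ 5 -
    Zt 3 / 21 * z ^ 7

theorem slit1 {z : ℂ} (hz : z ∈ strip) : z ∈ slitPlane := Or.inl hz.1

theorem slit2 {z : ℂ} (hz : z ∈ strip) : 1 + z ∈ slitPlane := by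
  left
  have := hz.1
  simp only [add_re, one_re]
  linarith only [this]

theorem slit3 {z : ℂ} (hz : z ∈ strip) : 1 - z ∈ slitPlane := by
  left
  have := hz.2
  simp only [sub_re, one_re]
  linarith only [this]

theorem hasDerivAt_G0 {z : ℂ} (hz : z ∈ strip) : HasDerivAt G0 (G1 z) z := by
  have h1 := slitPlane_ne_zero (slit1 hz)
  have h2 := slitPlane_ne_zero (slit2 hz)
  have h3 := slitPlane_ne_zero (slit3 hz)
  have d0 : HasDerivAt (fun w : ℂ => w) 1 z := hasDerivAt_id z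
  have d1 : HasDerivAt (fun w : ℂ => 1 + w) 1 z := d0.const_add 1
  have d2 : HasDerivAt (fun w : ℂ => 1 - w) (-1) z := by simpa using d0.const_sub 1
  have l1 := d0.clog (slit1 hz)
  have l2 := d1.clog (slit2 hz)
  have l3 := d2.clog (slit3 hz)
  have := (((((d0.mul l1).add (d1.mul l2)).sub (d2.mul l3)).add
    (d0.const_mul ((Real.log (2 * Real.pi) : ℂ) - 3))).sub
    ((d0.pow 3).const_mul ((Zt 1 : ℂ) / 3))).sub ((d0.pow 5).const_mul ((Zt 2 : ℂ) / 10)) |>.sub
    ((d0.pow 7).const_mul ((Zt 3 : ℂ) / 21))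
  refine this.congr_deriv ?_
  unfold G1
  field_simp
  push_cast
  ring

theorem hasDerivAt_G1 {z : ℂ} (hz : z ∈ strip) :
    HasDerivAt G1 (1 / z + 1 / (z - 1) + 1 / (z + 1) - 2 * z * Zt 1 - 2 * z ^ 3 * Zt 2 -
      2 * z ^ 5 * Zt 3) z := by
  have h1 := slitPlane_ne_zero (slit1 hz)
  have h2 := slitPlane_ne_zero (slit2 hz)
  have h3 := slitPlane_ne_zero (slit3 hz)
  have h4 : z - 1 ≠ 0 := by
    intro h
    apply h3
    rw [sub_eq_zero] at h
    rw [h]
    ring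
  have h5 : z + 1 ≠ 0 := by rwa [add_comm]
  have d0 : HasDerivAt (fun w : ℂ => w) 1 z := hasDerivAt_id z
  have d1 : HasDerivAt (fun w : ℂ => 1 + w) 1 z := d0.const_add 1
  have d2 : HasDerivAt (fun w : ℂ => 1 - w) (-1) z := by simpa using d0.const_sub 1
  have l1 := d0.clog (slit1 hz)
  have l2 := d1.clog (slit2 hz)
  have l3 := d2.clog (slit3 hz)
  have := (((((l1.add l2).add l3).add_const (Real.log (2 * Real.pi) : ℂ)).sub
    ((d0.pow 2).const_mul ((Zt 1 : ℂ)))).sub ((d0.pow 4).const_mul ((Zt 2 : ℂ) / 2))).sub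
    ((d0.pow 6).const_mul ((Zt 3 : ℂ) / 3))
  refine this.congr_deriv ?_
  have e1 : -1 / (1 - z) = 1 / (z - 1) := by
    rw [neg_div, ← div_neg]
    congr 1
    ring
  rw [e1]
  have e2 : 1 / (1 + z) = 1 / (z + 1) := by rw [add_comm]
  rw [e2]
  push_cast
  ring

/-! ### integration from `0` -/

theorem bound_zero {E : Type*} [NormedAddCommGroup E] [NormedSpace ℝ E] {f f' : ℝ → E} {C : ℝ}
    {n : ℕ} (hC : 0 ≤ C) (hd : ∀ s ∈ Ioc (0 : ℝ) 1, HasDerivAt f (f' s) s)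
    (hb : ∀ s ∈ Ioc (0 : ℝ) 1, ‖f' s‖ ≤ C * s ^ n) (h0 : Tendsto f (𝓝[>] 0) (𝓝 0)) :
    ∀ s ∈ Ioc (0 : ℝ) 1, ‖f s‖ ≤ C / (n + 1) * s ^ (n + 1) := by
  intro s hs
  have h1 : ∀ ε ∈ Ioo (0 : ℝ) s, ‖f s‖ ≤ ‖f ε‖ + C / (n + 1) * s ^ (n + 1) := by
    intro ε hε
    have hB : ∀ x : ℝ, HasDerivAt (fun x : ℝ => ‖f ε‖ + C / (n + 1) * (x ^ (n + 1) - ε ^ (n + 1)))
        (C * x ^ n) x := by
      intro x
      have e1 : HasDerivAt (fun x : ℝ => x ^ (n + 1)) (((n + 1 : ℕ) : ℝ) * x ^ n) x := by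
        simpa using hasDerivAt_pow (n + 1) x
      have e2 := ((e1.sub_const (ε ^ (n + 1))).const_mul (C / (n + 1))).const_add ‖f ε‖
      refine e2.congr_deriv ?_
      have : ((n : ℝ) + 1) ≠ 0 := by positivity
      push_cast
      field_simp
    have h2 := image_norm_le_of_norm_deriv_right_le_deriv_boundary' (f := f) (f' := f')
      (a := ε) (b := s) (B := fun x : ℝ => ‖f ε‖ + C / (n + 1) * (x ^ (n + 1) - ε ^ (n + 1)))
      (B' := fun x => C * x ^ n)
      (fun x hx => (hd x ⟨lt_of_lt_of_le hε.1 hx.1, hx.2.trans hs.2⟩).continuousAt.continuousWithinAt)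
      (fun x hx => (hd x ⟨lt_of_lt_of_le hε.1 hx.1, hx.2.le.trans hs.2⟩).hasDerivWithinAt)
      (by simp) (fun x _ => (hB x).continuousAt.continuousWithinAt)
      (fun x _ => (hB x).hasDerivWithinAt)
      (fun x hx => hb x ⟨lt_of_lt_of_le hε.1 hx.1, hx.2.le.trans hs.2⟩)
      (right_mem_Icc.mpr hε.2.le)
    refine h2.trans ?_
    have h3 : (0 : ℝ) ≤ ε ^ (n + 1) := pow_nonneg hε.1.le _
    have h4 : (0 : ℝ) ≤ C / (n + 1) := by positivity
    nlinarith only [h3, h4]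
  have h5 : Tendsto (fun ε => ‖f ε‖ + C / (n + 1) * s ^ (n + 1)) (𝓝[>] 0)
      (𝓝 (‖(0 : E)‖ + C / (n + 1) * s ^ (n + 1))) := h0.norm.add_const _
  rw [norm_zero, zero_add] at h5
  apply ge_of_tendsto h5
  filter_upwards [Ioo_mem_nhdsGT hs.1] with ε hε
  exact h1 ε hε

theorem seg_strip {z : ℂ} (hz : z ∈ strip) {s : ℝ} (hs : s ∈ Ioc (0 : ℝ) 1) :
    (s : ℂ) * z ∈ strip := by
  have h1 : ((s : ℂ) * z).re = s * z.re := by simp
  have h2 := hz.1
  have h3 := hz.2
  refine ⟨?_, ?_⟩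
  · rw [h1]
    exact mul_pos hs.1 h2
  · rw [h1]
    nlinarith only [h3, h2, hs, hs.1, hs.2]

theorem tendsto_smul_zero (z : ℂ) : Tendsto (fun s : ℝ => (s : ℂ) * z) (𝓝[>] 0) (𝓝 0) := by
  have h1 : Continuous fun s : ℝ => (s : ℂ) * z := by fun_prop
  have h2 := h1.tendsto 0
  simp only [ofReal_zero, zero_mul] at h2
  exact h2.mono_left nhdsWithin_le_nhds

/-- `log (2 sin π w) - log w - log 2π → 0` -/
theorem tendsto_ph_sub_log {z : ℂ} (hz : z ∈ strip) :
    Tendsto (fun s : ℝ => ph (s * z) - (log (s * z) + (Real.log (2 * Real.pi) : ℂ)))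
      (𝓝[>] 0) (𝓝 0) := by
  have hz0 : z ≠ 0 := slitPlane_ne_zero (slit1 hz)
  have hpi : (Real.pi : ℂ) ≠ 0 := by exact_mod_cast Real.pi_ne_zero
  -- the quotient
  have d1 : HasDerivAt (fun s : ℝ => Complex.sin (Real.pi * (s * z))) (Real.pi * z) 0 := by
    have e1 : HasDerivAt (fun s : ℝ => (Real.pi : ℂ) * ((s : ℂ) * z)) (Real.pi * z) 0 := by
      have := ((Complex.ofRealCLM.hasDerivAt (x := (0 : ℝ))).mul_const z).const_mul (Real.pi : ℂ)
      simpa using this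
    have e2 := (Complex.hasDerivAt_sin ((Real.pi : ℂ) * (((0 : ℝ) : ℂ) * z))).comp (0 : ℝ) e1
    refine e2.congr_deriv ?_
    simp
  have h1 := d1.tendsto_slope_zero_right
  simp only [zero_add, ofReal_zero, zero_mul, mul_zero, Complex.sin_zero, sub_zero] at h1
  have h2 : Tendsto (fun s : ℝ => (s⁻¹ • Complex.sin (Real.pi * (s * z))) / (Real.pi * z))
      (𝓝[>] 0) (𝓝 ((Real.pi * z) / (Real.pi * z))) := h1.div_const _
  rw [div_self (mul_ne_zero hpi hz0)] at h2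
  have h3 := ((continuousAt_clog (x := 1) (by simp)).tendsto.comp h2)
  rw [Complex.log_one] at h3
  refine h3.congr' ?_
  have h4 : ∀ᶠ s : ℝ in 𝓝[>] (0 : ℝ),
      0 < ((s⁻¹ • Complex.sin (Real.pi * ((s : ℂ) * z))) / (Real.pi * z) : ℂ).re := by
    have h5 : Tendsto (fun s : ℝ => ((s⁻¹ • Complex.sin (Real.pi * (s * z))) / (Real.pi * z)).re)
        (𝓝[>] 0) (𝓝 ((1 : ℂ).re)) := (Complex.continuous_re.tendsto 1).comp h2
    apply h5.eventually_const_lt
    simp
  filter_upwards [h4, Ioc_mem_nhdsGT (zero_lt_one : (0 : ℝ) < 1)] with s hs hs1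
  have hsz := seg_strip hz hs1
  have hs0 : (s : ℂ) ≠ 0 := by exact_mod_cast hs1.1.ne'
  set q : ℂ := (s⁻¹ • Complex.sin (Real.pi * (s * z))) / (Real.pi * z) with hq
  have hq0 : q ≠ 0 := by
    intro h
    rw [h] at hs
    simp at hs
  have e1 : 2 * Complex.sin (Real.pi * (s * z)) = ((2 * Real.pi : ℝ) : ℂ) * ((s * z) * q) := by
    rw [hq, Complex.real_smul]
    push_cast
    field_simp
  have e2 : log ((s * z) * q) = log (s * z) + log q := by
    rw [Complex.log_mul_eq_add_log_iff (mul_ne_zero hs0 hz0) hq0]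
    have a1 := Complex.abs_arg_lt_pi_div_two_iff.mpr (Or.inl hsz.1)
    have a2 := Complex.abs_arg_lt_pi_div_two_iff.mpr (Or.inl hs)
    rw [abs_lt] at a1 a2
    constructor <;> linarith only [a1, a2, a1.1, a1.2, a2.1, a2.2]
  simp only [Function.comp_apply]
  unfold ph
  rw [e1, Complex.log_ofReal_mul (by positivity) (mul_ne_zero (mul_ne_zero hs0 hz0) hq0), e2]
  ring

theorem tendsto_dif1 {z : ℂ} (hz : z ∈ strip) :
    Tendsto (fun s : ℝ => ph (s * z) - G1 (s * z)) (𝓝[>] 0) (𝓝 0) := by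
  have h1 := tendsto_ph_sub_log hz
  have h2 : ContinuousAt (fun w : ℂ => log (1 + w) + log (1 - w) - Zt 1 * w ^ 2 -
      Zt 2 / 2 * w ^ 4 - Zt 3 / 3 * w ^ 6) 0 := by
    have c1 : ContinuousAt (fun w : ℂ => log (1 + w)) 0 :=
      ContinuousAt.clog (by fun_prop) (by simp)
    have c2 : ContinuousAt (fun w : ℂ => log (1 - w)) 0 :=
      ContinuousAt.clog (by fun_prop) (by simp)
    fun_prop
  have h3 := h2.tendsto.comp (tendsto_smul_zero z)
  have h4 := h1.sub h3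
  simp only [add_zero, sub_zero, Complex.log_one, ne_eq, OfNat.ofNat_ne_zero, not_false_eq_true,
    zero_pow, mul_zero] at h4
  refine h4.congr fun s => ?_
  simp only [Function.comp_apply]
  unfold G1
  ring

theorem norm_dif1_le {z : ℂ} (hz : z ∈ strip) (hn : ‖z‖ ^ 2 ≤ 1 / 2) :
    ∀ s ∈ Ioc (0 : ℝ) 1, ‖ph (s * z) - G1 (s * z)‖ ≤ 16 / 7 * Zt 4 * ‖z‖ ^ 8 / 8 * s ^ 8 := by
  have h1 := bound_zero (f := fun s : ℝ => ph (s * z) - G1 (s * z))
    (f' := fun s : ℝ => z * (ph' (s * z) - (1 / (s * z) + 1 / (s * z - 1) + 1 / (s * z + 1) -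
      2 * (s * z) * Zt 1 - 2 * (s * z) ^ 3 * Zt 2 - 2 * (s * z) ^ 5 * Zt 3)))
    (C := 16 / 7 * Zt 4 * ‖z‖ ^ 8) (n := 7) (by have := Zt_nonneg 4; positivity) ?_ ?_
    (tendsto_dif1 hz)
  · intro s hs
    have := h1 s hs
    norm_num at this ⊢
    linarith only [this]
  · intro s hs
    have hm := seg_strip hz hs
    have e1 : HasDerivAt (fun s : ℝ => (s : ℂ) * z) z s := by
      have := (Complex.ofRealCLM.hasDerivAt (x := s)).mul_const z
      simpa using this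
    have e2 := ((hasDerivAt_ph hm).comp s e1).sub ((hasDerivAt_G1 hm).comp s e1)
    refine e2.congr_deriv ?_
    ring
  · intro s hs
    have hm := seg_strip hz hs
    have hs0 : 0 ≤ s := hs.1.le
    have e1 : ‖(s : ℂ) * z‖ = s * ‖z‖ := by
      rw [norm_mul, Complex.norm_real, Real.norm_of_nonneg hs0]
    have hsz : ‖(s : ℂ) * z‖ ^ 2 ≤ 1 / 2 := by
      rw [e1, mul_pow]
      have : s ^ 2 ≤ 1 := pow_le_one₀ hs0 hs.2
      nlinarith only [hn, this, sq_nonneg ‖z‖]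
    have h2 := ph'_expand hm hsz
    rw [norm_mul]
    have e2 : ph' (s * z) - (1 / (s * z) + 1 / (s * z - 1) + 1 / (s * z + 1) -
      2 * (s * z) * Zt 1 - 2 * (s * z) ^ 3 * Zt 2 - 2 * (s * z) ^ 5 * Zt 3) =
      ph' (s * z) - 1 / (s * z) - 1 / (s * z - 1) - 1 / (s * z + 1) + 2 * (s * z) * Zt 1 +
        2 * (s * z) ^ 3 * Zt 2 + 2 * (s * z) ^ 5 * Zt 3 := by ring
    rw [e2]
    calc ‖z‖ * _ ≤ ‖z‖ * (16 / 7 * Zt 4 * ‖(s : ℂ) * z‖ ^ 7) :=
          mul_le_mul_of_nonneg_left h2 (norm_nonneg _)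
      _ = _ := by rw [e1]; ring

/-- the first derivative `ph` near `0` -/
theorem norm_ph_sub_G1 {z : ℂ} (hz : z ∈ strip) (hn : ‖z‖ ^ 2 ≤ 1 / 2) :
    ‖ph z - G1 z‖ ≤ 2 / 7 * Zt 4 * ‖z‖ ^ 8 := by
  have h1 := norm_dif1_le hz hn 1 ⟨one_pos, le_rfl⟩
  simp only [ofReal_one, one_mul, one_pow, mul_one] at h1
  refine h1.trans (le_of_eq ?_)
  ring

theorem UU_zero : UU 0 = 0 := by
  have h1 := UU_one_sub 0
  have h2 := UU_add_one 0
  simp only [sub_zero, zero_add, zero_im, abs_zero, mul_zero, add_zero] at h1 h2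
  linarith only [h1, h2]

theorem tendsto_G0 {z : ℂ} (hz : z ∈ strip) :
    Tendsto (fun s : ℝ => G0 (s * z)) (𝓝[>] 0) (𝓝 0) := by
  have hz0 : z ≠ 0 := slitPlane_ne_zero (slit1 hz)
  have h2 : ContinuousAt (fun w : ℂ => (1 + w) * log (1 + w) - (1 - w) * log (1 - w) +
    ((Real.log (2 * Real.pi) : ℂ) - 3) * w - Zt 1 / 3 * w ^ 3 - Zt 2 / 10 * w ^ 5 -
    Zt 3 / 21 * w ^ 7) 0 := by
    have c1 : ContinuousAt (fun w : ℂ => log (1 + w)) 0 :=
      ContinuousAt.clog (by fun_prop) (by simp)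
    have c2 : ContinuousAt (fun w : ℂ => log (1 - w)) 0 :=
      ContinuousAt.clog (by fun_prop) (by simp)
    fun_prop
  have h3 := h2.tendsto.comp (tendsto_smul_zero z)
  have h4 : Tendsto (fun s : ℝ => ((s * Real.log s : ℝ) : ℂ) * z + (s : ℂ) * (z * log z))
      (𝓝[>] 0) (𝓝 0) := by
    have c1 : Continuous fun s : ℝ => ((s * Real.log s : ℝ) : ℂ) * z + (s : ℂ) * (z * log z) := by
      have := Real.continuous_mul_log
      fun_prop
    have c2 := c1.tendsto 0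
    simp only [zero_mul, ofReal_zero, add_zero] at c2
    exact c2.mono_left nhdsWithin_le_nhds
  have h5 := h4.add h3
  simp only [add_zero, sub_zero, Complex.log_one, ne_eq, OfNat.ofNat_ne_zero, not_false_eq_true,
    zero_pow, mul_zero] at h5
  refine h5.congr' ?_
  filter_upwards [self_mem_nhdsWithin] with s hs
  have hs0 : (0 : ℝ) < s := hs
  simp only [Function.comp_apply]
  unfold G0
  rw [Complex.log_ofReal_mul hs0 hz0]
  push_cast
  ring

/-- `Re Fh` near `0` -/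
theorem abs_UU_sub_G0 {z : ℂ} (hz : z ∈ strip) (hn : ‖z‖ ^ 2 ≤ 1 / 2) :
    |UU z - (G0 z).re| ≤ 2 / 63 * Zt 4 * ‖z‖ ^ 9 := by
  have h1 := bound_zero (f := fun s : ℝ => UU (s * z) - (G0 (s * z)).re)
    (f' := fun s : ℝ => (z * (ph (s * z) - G1 (s * z))).re)
    (C := 16 / 7 * Zt 4 * ‖z‖ ^ 9 / 8) (n := 8) (by have := Zt_nonneg 4; positivity) ?_ ?_ ?_
  · have := h1 1 ⟨one_pos, le_rfl⟩
    simp only [ofReal_one, one_mul, one_pow, mul_one, Real.norm_eq_abs] at this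
    norm_num at this ⊢
    linarith only [this]
  · intro s hs
    have hm := seg_strip hz hs
    have e1 : HasDerivAt (fun s : ℝ => (s : ℂ) * z) z s := by
      have := (Complex.ofRealCLM.hasDerivAt (x := s)).mul_const z
      simpa using this
    have e2 := ((hasDerivAt_Fh hm).comp s e1).sub ((hasDerivAt_G0 hm).comp s e1)
    have e3 : HasDerivAt (fun s : ℝ => ((Fh (s * z) - G0 (s * z)) : ℂ).re)
        ((ph (s * z) * z - G1 (s * z) * z) : ℂ).re s :=
      (Complex.reCLM.hasFDerivAt.comp_hasDerivAt s e2)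
    have e4 : (fun s : ℝ => UU (s * z) - (G0 (s * z)).re) =ᶠ[𝓝 s]
        fun s : ℝ => ((Fh (s * z) - G0 (s * z)) : ℂ).re := by
      have hc : Continuous fun s : ℝ => (s : ℂ) * z := by fun_prop
      filter_upwards [hc.continuousAt.preimage_mem_nhds (strip_open.mem_nhds hm)] with t ht
      rw [UU_eq_Fh ht, Complex.sub_re]
    have e5 := e3.congr_of_eventuallyEq e4
    refine e5.congr_deriv ?_
    congr 1
    ring
  · intro s hs
    have h2 := norm_dif1_le hz hn s hs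
    have h3 := Complex.abs_re_le_norm (z * (ph (s * z) - G1 (s * z)))
    rw [norm_mul] at h3
    rw [Real.norm_eq_abs]
    refine h3.trans ?_
    calc ‖z‖ * _ ≤ ‖z‖ * (16 / 7 * Zt 4 * ‖z‖ ^ 8 / 8 * s ^ 8) :=
          mul_le_mul_of_nonneg_left h2 (norm_nonneg _)
      _ = _ := by ring
  · have h2 := (continuous_UU.tendsto 0).comp (tendsto_smul_zero z)
    have h3 := (Complex.continuous_re.tendsto 0).comp (tendsto_G0 hz)
    have h4 := h2.sub h3
    rw [UU_zero, Complex.zero_re, sub_zero] at h4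
    exact h4

end Pool.Agent.Work.MP_b30479_gtS.G2.Num

end

section

/-!
# Numerics of `UU`: the value at a point
-/

set_option deprecated.oldSectionVars true

namespace Pool.Agent.Work.NumUs

open NumIs

section
open E

/-- `log (2 π)` -/
theorem log_two_pi : |Real.log (2 * Real.pi) - 18378770664 / 10000000000| ≤ 1 / 10 ^ 9 := by
  have h1 : chk [sub (q 1 1000000000) (sub (log (mul (q 2 1) pi)) (q 18378770664 10000000000))] 1
      [V.of 1 0 0] = true := by decide +kernel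
  have h2 : chk [sub (q 1 1000000000) (sub (q 18378770664 10000000000) (log (mul (q 2 1) pi)))] 1
      [V.of 1 0 0] = true := by decide +kernel
  have p1 := pos_of_chk (chk1 h1 (by norm_num) (x := 0) (by norm_num) (by norm_num))
  have p2 := pos_of_chk (chk1 h2 (by norm_num) (x := 0) (by norm_num) (by norm_num))
  simp only [val] at p1 p2
  norm_num at p1 p2 ⊢
  rw [abs_le]
  constructor <;> linarith only [p2, p1]

end

/-- forces the evaluation of a natural number -/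
def frc {α : Type} (n : ℕ) (k : ℕ → α) : α := match n with
  | 0 => k 0
  | Nat.succ m => k (Nat.succ m)

theorem frc_eq {α : Type} (n : ℕ) (k : ℕ → α) : frc n k = k n := by cases n <;> rfl

/-- positive part of the polynomial -/
def pPs (X X2 T2 : ℕ) : ℕ :=
  Nat.div (Nat.add (Nat.add (Nat.mul 451453846760 X) (Nat.mul 17287879077 (Nat.add X2 (Nat.mul 5 T2))))
    (Nat.mul 1734306190 (Nat.div (Nat.add (Nat.mul X X2) (Nat.mul 35 (Nat.mul X T2))) 68719476736)))
    2100000000000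

/-- negative part of the polynomial -/
def pNg (T XT X2 T2 : ℕ) : ℕ :=
  Nat.div (Nat.add (Nat.add (Nat.mul 1354361540280 T) (Nat.mul 172878790770 XT))
    (Nat.mul 1734306190 (Nat.div (Nat.add (Nat.mul 21 (Nat.mul T X2)) (Nat.mul 7 (Nat.mul T T2))) 68719476736)))
    2100000000000

/-- the polynomial part of `g0` divided by `x`, in units `1 / D` -/
noncomputable def pol (x y : ℝ) : ℝ :=
  6449340668 / 30000000000 * (x ^ 2 - 3 * y ^ 2) +
    823232337 / 100000000000 * (x ^ 4 - 10 * x ^ 2 * y ^ 2 + 5 * y ^ 4) +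
    173430619 / 210000000000 * (x ^ 6 - 21 * x ^ 4 * y ^ 2 + 35 * x ^ 2 * y ^ 4 - 7 * y ^ 6)

theorem pol_spec {p m X T X2 XT T2 : ℕ} (hX : X = p * p / 68719476736) (hT : T = m * m / 68719476736)
    (hX2 : X2 = X * X / 68719476736) (hXT : XT = X * T / 68719476736) (hT2 : T2 = T * T / 68719476736)
    (hn : ((p : ℝ) / DR) ^ 2 + ((m : ℝ) / DR) ^ 2 ≤ 1 / 2) :
    |pol (p / DR) (m / DR) * DR - ((pPs X X2 T2 : ℝ) - pNg T XT X2 T2)| ≤ 2 := by
  have hD := DR_pos
  set x := (p : ℝ) / DR with hx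
  set y := (m : ℝ) / DR with hy
  set u := x ^ 2 * DR with hu
  set w := y ^ 2 * DR with hw
  have hpx : (p : ℝ) = x * DR := by rw [hx]; field_simp
  have hmy : (m : ℝ) = y * DR := by rw [hy]; field_simp
  have hu0 : 0 ≤ u := by positivity
  have hw0 : 0 ≤ w := by positivity
  have huw : u + w ≤ DR / 2 := by
    have : u + w = (x ^ 2 + y ^ 2) * DR := by rw [hu, hw]; ring
    rw [this]; nlinarith only [hn, hD]
  have N0 : ∀ n : ℕ, (0 : ℝ) ≤ n := fun n => Nat.cast_nonneg n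
  -- X, T
  have a1 := ndiv_le (p * p) 68719476736
  have a2 := lt_ndiv (p * p) (b := 68719476736) (by norm_num)
  rw [← hX, DN_cast] at a1 a2
  have e1 : ((p * p : ℕ) : ℝ) / DR = u := by push_cast; rw [hpx, hu]; field_simp
  rw [e1] at a1 a2
  have b1 := ndiv_le (m * m) 68719476736
  have b2 := lt_ndiv (m * m) (b := 68719476736) (by norm_num)
  rw [← hT, DN_cast] at b1 b2
  have e2 : ((m * m : ℕ) : ℝ) / DR = w := by push_cast; rw [hmy, hw]; field_simp
  rw [e2] at b1 b2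
  have hXn := N0 X
  have hTn := N0 T
  -- X2, XT, T2
  set s := u ^ 2 / DR with hs
  set r := w ^ 2 / DR with hr
  set q := u * w / DR with hq
  have c1 := ndiv_le (X * X) 68719476736
  have c2 := lt_ndiv (X * X) (b := 68719476736) (by norm_num)
  rw [← hX2, DN_cast] at c1 c2
  push_cast at c1 c2
  have k1 : (X : ℝ) * X / DR ≤ s := by
    rw [hs]; apply div_le_div_of_nonneg_right _ hD.le; nlinarith only [a1, hXn]
  have k2 : s ≤ (X : ℝ) * X / DR + 1 := by
    rw [hs, div_le_iff₀ hD, add_mul, div_mul_cancel₀ _ hD.ne']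
    nlinarith only [a1, a2, hXn, huw, hw0, hu0]
  have d1 := ndiv_le (T * T) 68719476736
  have d2 := lt_ndiv (T * T) (b := 68719476736) (by norm_num)
  rw [← hT2, DN_cast] at d1 d2
  push_cast at d1 d2
  have k3 : (T : ℝ) * T / DR ≤ r := by
    rw [hr]; apply div_le_div_of_nonneg_right _ hD.le; nlinarith only [b1, hTn]
  have k4 : r ≤ (T : ℝ) * T / DR + 1 := by
    rw [hr, div_le_iff₀ hD, add_mul, div_mul_cancel₀ _ hD.ne']
    nlinarith only [b1, b2, hTn, huw, hw0, hu0]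
  have f1 := ndiv_le (X * T) 68719476736
  have f2 := lt_ndiv (X * T) (b := 68719476736) (by norm_num)
  rw [← hXT, DN_cast] at f1 f2
  push_cast at f1 f2
  have k5 : (X : ℝ) * T / DR ≤ q := by
    rw [hq]; apply div_le_div_of_nonneg_right _ hD.le
    exact mul_le_mul a1 b1 hTn hu0
  have k6 : q ≤ (X : ℝ) * T / DR + 1 := by
    rw [hq, div_le_iff₀ hD, add_mul, div_mul_cancel₀ _ hD.ne']
    nlinarith only [a1, a2, b1, b2, hXn, hTn, huw, hw0, hu0]
  have hX2n := N0 X2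
  have hT2n := N0 T2
  have hXTn := N0 XT
  -- sizes
  have hs0 : 0 ≤ s := by positivity
  have hr0 : 0 ≤ r := by positivity
  have hsu : s ≤ u / 2 := by rw [hs, div_le_iff₀ hD]; nlinarith only [huw, hu0, hw0]
  have hrw : r ≤ w / 2 := by rw [hr, div_le_iff₀ hD]; nlinarith only [huw, hu0, hw0]
  have sX : (X2 : ℝ) ≤ s ∧ s ≤ X2 + 2 := ⟨by linarith only [c1, k1], by linarith only [c2, k2]⟩
  have rT : (T2 : ℝ) ≤ r ∧ r ≤ T2 + 2 := ⟨by linarith only [d1, k3], by linarith only [d2, k4]⟩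
  have qXT : (XT : ℝ) ≤ q ∧ q ≤ XT + 2 := ⟨by linarith only [f1, k5], by linarith only [f2, k6]⟩
  -- third powers
  set Z1 := (X * X2 + 35 * (X * T2)) / 68719476736 with hZ1
  set Z2 := (21 * (T * X2) + 7 * (T * T2)) / 68719476736 with hZ2
  have g1 := ndiv_le (X * X2 + 35 * (X * T2)) 68719476736
  have g2 := lt_ndiv (X * X2 + 35 * (X * T2)) (b := 68719476736) (by norm_num)
  rw [← hZ1, DN_cast] at g1 g2
  push_cast at g1 g2
  have h1 := ndiv_le (21 * (T * X2) + 7 * (T * T2)) 68719476736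
  have h2 := lt_ndiv (21 * (T * X2) + 7 * (T * T2)) (b := 68719476736) (by norm_num)
  rw [← hZ2, DN_cast] at h1 h2
  push_cast at h1 h2
  have m1 : (X : ℝ) * X2 ≤ u * s := mul_le_mul a1 sX.1 hX2n hu0
  have m1' : u * s ≤ (X : ℝ) * X2 + (s + 2 * u) := by
    nlinarith only [sX.2, sX.1, a1, a2, hXn, hX2n, hu0, hs0]
  have m2 : (X : ℝ) * T2 ≤ u * r := mul_le_mul a1 rT.1 hT2n hu0
  have m2' : u * r ≤ (X : ℝ) * T2 + (r + 2 * u) := by
    nlinarith only [rT.2, rT.1, a1, a2, hXn, hT2n, hu0, hr0]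
  have m3 : (T : ℝ) * X2 ≤ w * s := mul_le_mul b1 sX.1 hX2n hw0
  have m3' : w * s ≤ (T : ℝ) * X2 + (s + 2 * w) := by
    nlinarith only [sX.2, sX.1, b1, b2, hTn, hX2n, hw0, hs0]
  have m4 : (T : ℝ) * T2 ≤ w * r := mul_le_mul b1 rT.1 hT2n hw0
  have m4' : w * r ≤ (T : ℝ) * T2 + (r + 2 * w) := by
    nlinarith only [rT.2, rT.1, b1, b2, hTn, hT2n, hw0, hr0]
  set z1 := (u * s + 35 * (u * r)) / DR with hz1
  set z2 := (21 * (w * s) + 7 * (w * r)) / DR with hz2
  have n1 : (Z1 : ℝ) ≤ z1 := by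
    refine g1.trans ?_
    rw [hz1]; apply div_le_div_of_nonneg_right _ hD.le; linarith only [m1, m2]
  have n2 : z1 ≤ Z1 + 38 := by
    have : z1 ≤ ((X : ℝ) * X2 + 35 * (X * T2)) / DR + 37 := by
      rw [hz1, div_le_iff₀ hD, add_mul, div_mul_cancel₀ _ hD.ne']
      linarith only [m1', m2', hsu, hrw, huw, hu0, hw0, hs0, hr0, hD]
    linarith only [this, g2]
  have n3 : (Z2 : ℝ) ≤ z2 := by
    refine h1.trans ?_
    rw [hz2]; apply div_le_div_of_nonneg_right _ hD.le; linarith only [m3, m4]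
  have n4 : z2 ≤ Z2 + 31 := by
    have : z2 ≤ (21 * ((T : ℝ) * X2) + 7 * (T * T2)) / DR + 30 := by
      rw [hz2, div_le_iff₀ hD, add_mul, div_mul_cancel₀ _ hD.ne']
      linarith only [m3', m4', hsu, hrw, huw, hu0, hw0, hs0, hr0, hD]
    linarith only [this, h2]
  have hZ1n := N0 Z1
  have hZ2n := N0 Z2
  -- final
  have o1 := ndiv_le (451453846760 * X + 17287879077 * (X2 + 5 * T2) + 1734306190 * Z1) 2100000000000
  have o2 := lt_ndiv (451453846760 * X + 17287879077 * (X2 + 5 * T2) + 1734306190 * Z1)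
    (b := 2100000000000) (by norm_num)
  have o3 := ndiv_le (1354361540280 * T + 172878790770 * XT + 1734306190 * Z2) 2100000000000
  have o4 := lt_ndiv (1354361540280 * T + 172878790770 * XT + 1734306190 * Z2)
    (b := 2100000000000) (by norm_num)
  have hps : (pPs X X2 T2 : ℝ) = (((451453846760 * X + 17287879077 * (X2 + 5 * T2) +
    1734306190 * Z1) / 2100000000000 : ℕ) : ℝ) := rfl
  have hng : (pNg T XT X2 T2 : ℝ) = (((1354361540280 * T + 172878790770 * XT +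
    1734306190 * Z2) / 2100000000000 : ℕ) : ℝ) := rfl
  rw [← hps] at o1 o2
  rw [← hng] at o3 o4
  push_cast at o1 o2 o3 o4
  have hpol : pol x y * DR = (451453846760 * u + 17287879077 * (s + 5 * r) + 1734306190 * z1) /
      2100000000000 - (1354361540280 * w + 172878790770 * q + 1734306190 * z2) / 2100000000000 := by
    rw [hz1, hz2, hs, hr, hq, hu, hw]
    unfold pol
    field_simp
    ring
  rw [hpol, abs_le]
  constructor
  · linarith only [sX.1, rT.1, qXT.2, o1, o2, o3, o4, n1, n2, n3, n4, a1, a2, b1, b2]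
  · linarith only [sX.2, rT.2, qXT.1, o1, o2, o3, o4, n1, n2, n3, n4, a1, a2, b1, b2]

end Pool.Agent.Work.NumUs

end

section

/-!
# Numerics of `UU`: analytic part
-/

namespace Pool.Agent.Work.NumUs

open MP_b30479_gtS MP_b30479_gtS.VOL MP_b30479_gtS.G2 MP_b30479_gtS.G2.Num

/-- `UU (x + i t)` as a real function -/
noncomputable def uu (x t : ℝ) : ℝ := UU ⟨x, t⟩

theorem UU_uu (w : ℂ) : UU w = uu w.re w.im := rfl

theorem uu_neg (x t : ℝ) : uu x (-t) = uu x t := by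
  unfold uu UU
  simp

theorem uu_one_sub (x t : ℝ) : uu (1 - x) t = -uu x t := by
  have h := UU_one_sub ⟨x, -t⟩
  have e : (1 : ℂ) - ⟨x, -t⟩ = ⟨1 - x, t⟩ := by
    apply Complex.ext <;> simp
  rw [e] at h
  rw [← uu_neg x t]
  exact h

theorem uu_add_one (x t : ℝ) : uu (x + 1) t = uu x t + Real.pi * |t| := by
  have h := UU_add_one ⟨x, t⟩
  have e : (⟨x, t⟩ : ℂ) + 1 = ⟨x + 1, t⟩ := by
    apply Complex.ext <;> simp
  rw [e] at h
  exact h

/-! ### derivative along a segment -/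

theorem uu_line {x t a b τ : ℝ} (h0 : 0 < x + τ * a) (h1 : x + τ * a < 1) :
    HasDerivAt (fun τ => uu (x + τ * a) (t + τ * b))
      (a * NumIs.lnA (x + τ * a) (t + τ * b) - b * NumIs.lnB (x + τ * a) (t + τ * b)) τ := by
  have hg : HasDerivAt (fun τ : ℝ => ((x : ℂ) + t * Complex.I) + τ * ((a : ℂ) + b * Complex.I))
      ((a : ℂ) + b * Complex.I) τ := by
    have := ((Complex.ofRealCLM.hasDerivAt (x := τ)).mul_const ((a : ℂ) + b * Complex.I)).const_add
      ((x : ℂ) + t * Complex.I)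
    simpa using this
  have e : ∀ τ : ℝ, ((x : ℂ) + t * Complex.I) + τ * ((a : ℂ) + b * Complex.I) =
      ⟨x + τ * a, t + τ * b⟩ := by
    intro τ
    apply Complex.ext <;> simp
  have hs : ((x : ℂ) + t * Complex.I) + τ * ((a : ℂ) + b * Complex.I) ∈ strip := by
    rw [e]
    exact ⟨h0, h1⟩
  have h2 := hasDerivAt_UU hg (Or.inr hs)
  have h3 : (fun τ => uu (x + τ * a) (t + τ * b)) =
      fun τ : ℝ => UU (((x : ℂ) + t * Complex.I) + τ * ((a : ℂ) + b * Complex.I)) := by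
    funext s
    rw [e]
    rfl
  rw [h3]
  refine h2.congr_deriv ?_
  rw [LL_lnA hs, YY_lnB hs, e]
  simp
  ring

/-- second order expansion of `uu` -/
theorem uu_second {x t a b L2 : ℝ} (hL : 0 < L2)
    (h0 : ∀ τ ∈ Set.Icc (0 : ℝ) 1, 0 < x + τ * a ∧ x + τ * a < 1)
    (hM : ∀ τ ∈ Set.Icc (0 : ℝ) 1, L2 ≤ NumIs.MM (x + τ * a) (t + τ * b)) :
    |uu (x + a) (t + b) - uu x t - (a * NumIs.lnA x t - b * NumIs.lnB x t)| ≤
      Real.pi * (|a ^ 2 - b ^ 2| * |NumIs.PP x t| + 2 * |a * b| * |NumIs.QQ x t|) / 2 +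
        (|a| + |b|) * (Real.pi ^ 2 * (a ^ 2 + b ^ 2) / L2 / 2) / 3 := by
  have hpi := Real.pi_pos
  have hs : ∀ τ ∈ Set.Icc (0 : ℝ) 1, 0 < Real.sin (Real.pi * (x + τ * a)) := by
    intro τ hτ
    obtain ⟨k0, k1⟩ := h0 τ hτ
    apply Real.sin_pos_of_pos_of_lt_pi
    · positivity
    · nlinarith only [hpi, k1]
  set C1 := Real.pi * (|a ^ 2 - b ^ 2| * |NumIs.PP x t| + 2 * |a * b| * |NumIs.QQ x t|) with hC1
  set C2 := (|a| + |b|) * (Real.pi ^ 2 * (a ^ 2 + b ^ 2) / L2 / 2) with hC2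
  have key := image_norm_le_of_norm_deriv_right_le_deriv_boundary
    (f := fun τ => uu (x + τ * a) (t + τ * b) - uu x t - τ * (a * NumIs.lnA x t - b * NumIs.lnB x t))
    (f' := fun τ => (a * NumIs.lnA (x + τ * a) (t + τ * b) - b * NumIs.lnB (x + τ * a) (t + τ * b)) -
      (a * NumIs.lnA x t - b * NumIs.lnB x t))
    (a := 0) (b := 1) (B := fun τ => C1 * τ ^ 2 / 2 + C2 * τ ^ 3 / 3)
    (B' := fun τ => C1 * τ + C2 * τ ^ 2)
  have hd : ∀ τ ∈ Set.Icc (0 : ℝ) 1, HasDerivAt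
      (fun τ => uu (x + τ * a) (t + τ * b) - uu x t - τ * (a * NumIs.lnA x t - b * NumIs.lnB x t))
      ((a * NumIs.lnA (x + τ * a) (t + τ * b) - b * NumIs.lnB (x + τ * a) (t + τ * b)) -
      (a * NumIs.lnA x t - b * NumIs.lnB x t)) τ := fun τ hτ => by
    have := ((uu_line (t := t) (b := b) (h0 τ hτ).1 (h0 τ hτ).2).sub_const (uu x t)).sub
      ((hasDerivAt_id τ).mul_const (a * NumIs.lnA x t - b * NumIs.lnB x t))
    exact this.congr_deriv (by simp)
  have h2 := key (fun τ hτ => (hd τ hτ).continuousAt.continuousWithinAt)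
    (fun τ hτ => (hd τ ⟨hτ.1, hτ.2.le⟩).hasDerivWithinAt) (by simp)
    (fun τ => by
      have := (((hasDerivAt_pow 2 τ).const_mul C1).div_const 2).add
        (((hasDerivAt_pow 3 τ).const_mul C2).div_const 3)
      refine this.congr_deriv ?_
      push_cast
      ring)
    (fun τ hτ => by
      have hτ0 := hτ.1
      have hτ1 := hτ.2.le
      have hτ' : τ ∈ Set.Icc (0 : ℝ) 1 := ⟨hτ0, hτ1⟩
      have h3 := NumIs.ln_second (x := x) (t := t) (a := τ * a) (b := τ * b) hL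
        (fun s hs' => by
          have := hs (s * τ) ⟨mul_nonneg hs'.1 hτ0, mul_le_one₀ hs'.2 hτ0 hτ1⟩
          rwa [mul_assoc] at this)
        (fun s hs' => by
          have := hM (s * τ) ⟨mul_nonneg hs'.1 hτ0, mul_le_one₀ hs'.2 hτ0 hτ1⟩
          rwa [mul_assoc, mul_assoc] at this)
      obtain ⟨h4, h5⟩ := h3
      set K := Real.pi ^ 2 * ((τ * a) ^ 2 + (τ * b) ^ 2) / L2 / 2 with hK
      have eK : (|a| + |b|) * K = C2 * τ ^ 2 := by
        rw [hK, hC2]
        ring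
      rw [Real.norm_eq_abs]
      have e : (a * NumIs.lnA (x + τ * a) (t + τ * b) - b * NumIs.lnB (x + τ * a) (t + τ * b)) -
          (a * NumIs.lnA x t - b * NumIs.lnB x t) =
          τ * (Real.pi * ((a ^ 2 - b ^ 2) * NumIs.PP x t + 2 * (a * b) * NumIs.QQ x t)) +
          (a * (NumIs.lnA (x + τ * a) (t + τ * b) - NumIs.lnA x t -
            Real.pi * (τ * a * NumIs.PP x t + τ * b * NumIs.QQ x t)) -
           b * (NumIs.lnB (x + τ * a) (t + τ * b) - NumIs.lnB x t -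
            Real.pi * (τ * b * NumIs.PP x t - τ * a * NumIs.QQ x t))) := by
        ring
      rw [e, ← eK]
      refine (abs_add_le _ _).trans (add_le_add ?_ ?_)
      · rw [abs_mul, abs_of_nonneg hτ0, abs_mul, abs_of_pos hpi, mul_comm C1, hC1]
        apply mul_le_mul_of_nonneg_left _ hτ0
        apply mul_le_mul_of_nonneg_left _ hpi.le
        refine (abs_add_le _ _).trans (add_le_add ?_ ?_)
        · rw [abs_mul]
        · rw [abs_mul, abs_mul, abs_of_pos (two_pos : (0 : ℝ) < 2)]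
      · refine (abs_sub _ _).trans ?_
        rw [abs_mul, abs_mul, add_mul]
        exact add_le_add (mul_le_mul_of_nonneg_left h4 (abs_nonneg _))
          (mul_le_mul_of_nonneg_left h5 (abs_nonneg _)))
    (Set.right_mem_Icc.2 zero_le_one)
  simpa [Real.norm_eq_abs] using h2

/-! ### values -/

/-- explicit real part of `G0` with rational coefficients -/
noncomputable def g0 (x t : ℝ) : ℝ :=
  x * (Real.log (x ^ 2 + t ^ 2) / 2) - t * Real.arctan (t / x) +
  ((1 + x) * (Real.log ((1 + x) ^ 2 + t ^ 2) / 2) - t * Real.arctan (t / (1 + x))) -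
  ((1 - x) * (Real.log ((1 - x) ^ 2 + t ^ 2) / 2) - t * Real.arctan (t / (1 - x))) +
  (Real.log (2 * Real.pi) - 3) * x -
  x * (6449340668 / 30000000000 * (x ^ 2 - 3 * t ^ 2) +
    823232337 / 100000000000 * (x ^ 4 - 10 * x ^ 2 * t ^ 2 + 5 * t ^ 4) +
    173430619 / 210000000000 * (x ^ 6 - 21 * x ^ 4 * t ^ 2 + 35 * x ^ 2 * t ^ 4 - 7 * t ^ 6))

theorem log_re_im {x t : ℝ} (hx : 0 < x) : Complex.log ⟨x, t⟩ =
    ⟨Real.log (x ^ 2 + t ^ 2) / 2, Real.arctan (t / x)⟩ := by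
  apply Complex.ext
  · rw [Complex.log_re, Complex.norm_def, Complex.normSq_mk, Real.log_sqrt (add_nonneg (mul_self_nonneg x) (mul_self_nonneg t))]
    congr 2
    ring
  · rw [Complex.log_im, Complex.arg_of_re_nonneg (by simpa using hx.le)]
    have hn : 0 < Real.sqrt (x ^ 2 + t ^ 2) := Real.sqrt_pos.2 (by positivity)
    have e : Real.sqrt (x ^ 2 + t ^ 2) = ‖(⟨x, t⟩ : ℂ)‖ := by
      rw [Complex.norm_def, Complex.normSq_mk]
      congr 1
      ring
    rw [← e, Real.arctan_eq_arcsin]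
    congr 1
    change t / Real.sqrt (x ^ 2 + t ^ 2) = t / x / Real.sqrt (1 + (t / x) ^ 2)
    have e2 : 1 + (t / x) ^ 2 = (x ^ 2 + t ^ 2) / x ^ 2 := by
      field_simp
    rw [e2, Real.sqrt_div (by positivity), Real.sqrt_sq hx.le]
    field_simp

theorem re_G0 {x t : ℝ} (hx : 0 < x) (hx1 : x < 1) : (G0 ⟨x, t⟩).re =
    x * (Real.log (x ^ 2 + t ^ 2) / 2) - t * Real.arctan (t / x) +
  ((1 + x) * (Real.log ((1 + x) ^ 2 + t ^ 2) / 2) - t * Real.arctan (t / (1 + x))) -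
  ((1 - x) * (Real.log ((1 - x) ^ 2 + t ^ 2) / 2) - t * Real.arctan (t / (1 - x))) +
  (Real.log (2 * Real.pi) - 3) * x -
  x * (Zt 1 / 3 * (x ^ 2 - 3 * t ^ 2) +
    Zt 2 / 10 * (x ^ 4 - 10 * x ^ 2 * t ^ 2 + 5 * t ^ 4) +
    Zt 3 / 21 * (x ^ 6 - 21 * x ^ 4 * t ^ 2 + 35 * x ^ 2 * t ^ 4 - 7 * t ^ 6)) := by
  unfold G0
  have e1 : (1 : ℂ) + ⟨x, t⟩ = ⟨1 + x, t⟩ := by apply Complex.ext <;> simp
  have e2 : (1 : ℂ) - ⟨x, t⟩ = ⟨1 - x, -t⟩ := by apply Complex.ext <;> simp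
  rw [e1, e2, log_re_im hx, log_re_im (by linarith only [hx, hx1] : 0 < 1 + x), log_re_im (by linarith only [hx1] : 0 < 1 - x)]
  have e3 : ((Real.log (2 * Real.pi) : ℂ) - 3) = ((Real.log (2 * Real.pi) - 3 : ℝ) : ℂ) := by
    push_cast
    ring
  have e4 : ((Zt 1 : ℂ) / 3) = ((Zt 1 / 3 : ℝ) : ℂ) := by push_cast; ring
  have e5 : ((Zt 2 : ℂ) / 10) = ((Zt 2 / 10 : ℝ) : ℂ) := by push_cast; ring
  have e6 : ((Zt 3 : ℂ) / 21) = ((Zt 3 / 21 : ℝ) : ℂ) := by push_cast; ring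
  have p3 : ((⟨x, t⟩ : ℂ) ^ 3).re = x * (x ^ 2 - 3 * t ^ 2) := by
    simp only [pow_succ, pow_zero, one_mul, Complex.mul_re, Complex.mul_im]
    ring
  have p5 : ((⟨x, t⟩ : ℂ) ^ 5).re = x * (x ^ 4 - 10 * x ^ 2 * t ^ 2 + 5 * t ^ 4) := by
    simp only [pow_succ, pow_zero, one_mul, Complex.mul_re, Complex.mul_im]
    ring
  have p7 : ((⟨x, t⟩ : ℂ) ^ 7).re =
      x * (x ^ 6 - 21 * x ^ 4 * t ^ 2 + 35 * x ^ 2 * t ^ 4 - 7 * t ^ 6) := by
    simp only [pow_succ, pow_zero, one_mul, Complex.mul_re, Complex.mul_im]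
    ring
  rw [e3, e4, e5, e6]
  simp only [Complex.sub_re, Complex.add_re, Complex.mul_re, Complex.ofReal_re, Complex.ofReal_im,
    zero_mul, sub_zero, p3, p5, p7]
  have e7 : Real.arctan (-t / (1 - x)) = -Real.arctan (t / (1 - x)) := by
    rw [← Real.arctan_neg]
    congr 1
    ring
  have e8 : (-t) ^ 2 = t ^ 2 := by ring
  rw [e7, e8]
  ring

theorem abs_g0 {x t : ℝ} (hx : 0 < x) (hx1 : x < 1) (hn : x ^ 2 + t ^ 2 ≤ 1 / 2) :
    |(G0 ⟨x, t⟩).re - g0 x t| ≤ 1 / 10 ^ 9 := by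
  rw [re_G0 hx hx1]
  unfold g0
  have h1 := Zt_one_bounds
  have h2 := Zt_two_bounds
  have h3 := Zt_three_bounds
  set X := x ^ 2 with hX
  set T := t ^ 2 with hT
  have hX0 : 0 ≤ X := sq_nonneg x
  have hT0 : 0 ≤ T := sq_nonneg t
  have eX2 : x ^ 4 = X ^ 2 := by rw [hX]; ring
  have eX3 : x ^ 6 = X ^ 3 := by rw [hX]; ring
  have eT2 : t ^ 4 = T ^ 2 := by rw [hT]; ring
  have eT3 : t ^ 6 = T ^ 3 := by rw [hT]; ring
  have e : ∀ A B C D E F G H I J : ℝ, A - x * (B * D + E * F + G * H) -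
      (A - x * (C * D + I * F + J * H)) = -(x * ((B - C) * D + (E - I) * F + (G - J) * H)) := by
    intros; ring
  rw [e, abs_neg, abs_mul, abs_of_pos hx, eX2, eX3, eT2, eT3]
  have b1 : |X - 3 * T| ≤ 3 / 2 := by rw [abs_le]; constructor <;> linarith only [hn, hX0, hx, hx1, hT0]
  have b2 : |X ^ 2 - 10 * X * T + 5 * T ^ 2| ≤ 3 := by
    rw [abs_le]; constructor <;> nlinarith
  have b3 : |X ^ 3 - 21 * X ^ 2 * T + 35 * X * T ^ 2 - 7 * T ^ 3| ≤ 8 := by
    have hX1 : X ≤ 1 / 2 := by linarith only [hn, hT0]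
    have hT1 : T ≤ 1 / 2 := by linarith only [hn, hX0]
    have m1 : 0 ≤ X * T := mul_nonneg hX0 hT0
    have m2 : X * T ≤ 1 / 4 := by nlinarith
    have m3 : X ^ 2 * T ≤ 1 / 8 := by nlinarith
    have m4 : X * T ^ 2 ≤ 1 / 8 := by nlinarith
    have m5 : X ^ 3 ≤ 1 / 8 := by nlinarith [sq_nonneg X]
    have m6 : T ^ 3 ≤ 1 / 8 := by nlinarith [sq_nonneg T]
    have n3 : 0 ≤ X ^ 2 * T := by positivity
    have n4 : 0 ≤ X * T ^ 2 := by positivity
    have n5 : 0 ≤ X ^ 3 := by positivity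
    have n6 : 0 ≤ T ^ 3 := by positivity
    rw [abs_le]; constructor <;> linarith only [hx, hx1, m3, m6, n4, n5, m4, m5, n3, n6]
  have c1 : |Zt 1 / 3 - 6449340668 / 30000000000| ≤ 1 / (3 * 10 ^ 10) := by
    rw [abs_le]; constructor <;> linarith only [hx, hx1, h1, h1.1, h1.2]
  have c2 : |Zt 2 / 10 - 823232337 / 100000000000| ≤ 1 / 10 ^ 11 := by
    rw [abs_le]; constructor <;> linarith only [hx, hx1, h2, h2.1, h2.2]
  have c3 : |Zt 3 / 21 - 173430619 / 210000000000| ≤ 1 / (21 * 10 ^ 10) := by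
    rw [abs_le]; constructor <;> linarith only [hx, hx1, h3, h3.1, h3.2]
  have k1 := mul_le_mul c1 b1 (abs_nonneg _) (by positivity)
  have k2 := mul_le_mul c2 b2 (abs_nonneg _) (by positivity)
  have k3 := mul_le_mul c3 b3 (abs_nonneg _) (by positivity)
  rw [← abs_mul] at k1 k2 k3
  have k4 := abs_add_three ((Zt 1 / 3 - 6449340668 / 30000000000) * (X - 3 * T))
    ((Zt 2 / 10 - 823232337 / 100000000000) * (X ^ 2 - 10 * X * T + 5 * T ^ 2))
    ((Zt 3 / 21 - 173430619 / 210000000000) * (X ^ 3 - 21 * X ^ 2 * T + 35 * X * T ^ 2 - 7 * T ^ 3))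
  have k5 : |(Zt 1 / 3 - 6449340668 / 30000000000) * (X - 3 * T) +
    (Zt 2 / 10 - 823232337 / 100000000000) * (X ^ 2 - 10 * X * T + 5 * T ^ 2) +
    (Zt 3 / 21 - 173430619 / 210000000000) * (X ^ 3 - 21 * X ^ 2 * T + 35 * X * T ^ 2 - 7 * T ^ 3)| ≤
      1 / 10 ^ 9 := by
    refine k4.trans ?_
    norm_num at k1 k2 k3 ⊢
    linarith only [hx, hx1, k1, k2, k3]
  calc x * _ ≤ 1 * (1 / 10 ^ 9) := mul_le_mul hx1.le k5 (abs_nonneg _) zero_le_one
    _ = _ := one_mul _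

/-- **value of `uu`** -/
theorem abs_uu_sub_g0 {x t : ℝ} (hx : 0 < x) (hx1 : x < 1) (hn : x ^ 2 + t ^ 2 ≤ 1 / 2) :
    |uu x t - g0 x t| ≤ 1 / 10260 * (x ^ 2 + t ^ 2) ^ 4 + 1 / 10 ^ 9 := by
  have hnz : ‖(⟨x, t⟩ : ℂ)‖ ^ 2 = x ^ 2 + t ^ 2 := by
    rw [← Complex.normSq_eq_norm_sq, Complex.normSq_mk]
    ring
  have h1 := abs_UU_sub_G0 (z := ⟨x, t⟩) ⟨hx, hx1⟩ (by rw [hnz]; exact hn)
  have h2 := abs_g0 hx hx1 hn
  have h3 : 2 / 63 * Zt 4 * ‖(⟨x, t⟩ : ℂ)‖ ^ 9 ≤ 1 / 10260 * (x ^ 2 + t ^ 2) ^ 4 := by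
    have e : ‖(⟨x, t⟩ : ℂ)‖ ^ 9 = (x ^ 2 + t ^ 2) ^ 4 * ‖(⟨x, t⟩ : ℂ)‖ := by
      rw [← hnz]
      ring
    have h4 : ‖(⟨x, t⟩ : ℂ)‖ ≤ 7072 / 10000 := by
      apply abs_le_of_sq_le_sq' _ (by norm_num) |>.2
      rw [hnz]
      norm_num
      linarith only [hx, hx1, hn]
    have h5 := Zt_four_le
    have h6 := Zt_nonneg 4
    rw [e]
    have h7 : Zt 4 * ‖(⟨x, t⟩ : ℂ)‖ ≤ 0.00433577 * (7072 / 10000) :=
      mul_le_mul h5 h4 (norm_nonneg _) (by norm_num)
    have h8 : 0 ≤ (x ^ 2 + t ^ 2) ^ 4 := by positivity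
    calc 2 / 63 * Zt 4 * ((x ^ 2 + t ^ 2) ^ 4 * ‖(⟨x, t⟩ : ℂ)‖) =
        2 / 63 * (Zt 4 * ‖(⟨x, t⟩ : ℂ)‖) * (x ^ 2 + t ^ 2) ^ 4 := by ring
      _ ≤ 1 / 10260 * (x ^ 2 + t ^ 2) ^ 4 := by
        apply mul_le_mul_of_nonneg_right _ h8
        norm_num at h7 ⊢
        linarith only [hx, hx1, h7]
  have h9 := abs_add_le (uu x t - (G0 ⟨x, t⟩).re) ((G0 ⟨x, t⟩).re - g0 x t)
  rw [sub_add_sub_cancel] at h9
  refine h9.trans (add_le_add (le_trans h1 h3) h2)

end Pool.Agent.Work.NumUs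

end

section

/-!
# Numerics of `UU`: the value at a point, part 2
-/

set_option deprecated.oldSectionVars true

namespace Pool.Agent.Work.NumUs

open NumIs

theorem logM_D : logM (Nat.mul 68719476736 68719476736) = (1714777615768, 0) := by decide +kernel

/-- `log D` -/
theorem log_D : |Real.log DR * DR - 1714777615768| ≤ 6 := by
  have hD := DR_pos
  have h := logM_spec (m := 68719476736 * 68719476736) (by norm_num) (by norm_num)
  have e : logM (68719476736 * 68719476736) = (1714777615768, 0) := logM_D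
  rw [e] at h
  have e2 : ((68719476736 * 68719476736 : ℕ) : ℝ) / DR = DR := by
    rw [Nat.cast_mul, DN_cast]; field_simp
  rw [e2] at h
  simpa using h

/-- logarithm of a quotient `N / D^2` -/
theorem log_q {N : ℕ} (h0 : 0 < N) (h1 : N < 2 ^ 200) :
    |Real.log ((N : ℝ) / DR ^ 2) * DR - (((logM N).1 : ℝ) - (logM N).2 - 1714777615768)| ≤ 12 := by
  have hD := DR_pos
  have h := logM_spec h0 h1
  have k := log_D
  have hN : (0 : ℝ) < N := by exact_mod_cast h0
  have e : Real.log ((N : ℝ) / DR ^ 2) = Real.log ((N : ℝ) / DR) - Real.log DR := by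
    rw [← Real.log_div (by positivity) hD.ne']
    congr 1
    field_simp
  rw [e]
  have := abs_sub (Real.log ((N : ℝ) / DR) * DR - (((logM N).1 : ℝ) - (logM N).2))
    (Real.log DR * DR - 1714777615768)
  calc |(Real.log ((N : ℝ) / DR) - Real.log DR) * DR -
      (((logM N).1 : ℝ) - (logM N).2 - 1714777615768)| =
      |(Real.log ((N : ℝ) / DR) * DR - (((logM N).1 : ℝ) - (logM N).2)) -
        (Real.log DR * DR - 1714777615768)| := by congr 1; ring
    _ ≤ 12 := by linarith only [h, k, this]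

/-- arctangent of a quotient -/
theorem atan_q {m k : ℕ} {r : ℕ × ℕ} (hk : 0 < k) (h : atN (m * 68719476736 / k) = some r) :
    |Real.arctan ((m : ℝ) / k) * DR - ((r.1 : ℝ) - r.2)| ≤ 14 := by
  have hD := DR_pos
  have h1 := atN_spec h
  have hk' : (0 : ℝ) < k := by exact_mod_cast hk
  have a1 := ndiv_le (m * 68719476736) k
  have a2 := lt_ndiv (m * 68719476736) hk
  rw [Nat.cast_mul, DN_cast] at a1 a2
  set c := m * 68719476736 / k
  have h2 := arctan_sub_le ((m : ℝ) / k) ((c : ℝ) / DR)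
  have h3 : |(m : ℝ) / k - (c : ℝ) / DR| * DR ≤ 1 := by
    have e : |(m : ℝ) / k - (c : ℝ) / DR| * DR = |(m : ℝ) * DR / k - c| := by
      nth_rewrite 2 [← abs_of_pos hD]
      rw [← abs_mul]
      congr 1
      field_simp
    rw [e, abs_le]
    constructor <;> linarith only [a1, a2]
  have h4 : |Real.arctan ((m : ℝ) / k) * DR - Real.arctan ((c : ℝ) / DR) * DR| ≤ 1 := by
    rw [← sub_mul, abs_mul, abs_of_pos hD]
    exact (mul_le_mul_of_nonneg_right h2 hD.le).trans h3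
  have h5 := abs_add_le (Real.arctan ((m : ℝ) / k) * DR - Real.arctan ((c : ℝ) / DR) * DR)
    (Real.arctan ((c : ℝ) / DR) * DR - ((r.1 : ℝ) - r.2))
  rw [sub_add_sub_cancel] at h5
  linarith only [h1, h4, h5]

/-- the last part of the value -/
def uP (p m : ℕ) (r0 r1 r2 a b c : ℕ × ℕ) (e : ℕ) : Option R3 :=
  frc (Nat.div (Nat.mul p p) 68719476736) fun X =>
  frc (Nat.div (Nat.mul m m) 68719476736) fun T =>
  frc (Nat.div (Nat.mul X X) 68719476736) fun X2 =>
  frc (Nat.div (Nat.mul X T) 68719476736) fun XT =>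
  frc (Nat.div (Nat.mul T T) 68719476736) fun T2 =>
  frc (Nat.add (Nat.add (Nat.add (Nat.mul p a.1) (Nat.mul (Nat.add 68719476736 p) b.1))
    (Nat.mul (Nat.sub 68719476736 p) (Nat.add c.2 1714777615768)))
    (Nat.mul 2 (Nat.add (Nat.mul m (Nat.add (Nat.add r0.2 r1.2) r2.1)) (Nat.mul p (pNg T XT X2 T2))))) fun P2 =>
  frc (Nat.add (Nat.add (Nat.add (Nat.mul p (Nat.add a.2 1714777615768))
    (Nat.mul (Nat.add 68719476736 p) (Nat.add b.2 1714777615768))) (Nat.mul (Nat.sub 68719476736 p) c.1))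
    (Nat.mul 2 (Nat.add (Nat.mul m (Nat.add (Nat.add r0.1 r1.1) r2.2))
      (Nat.mul p (Nat.add (pPs X X2 T2) 79860479899))))) fun Q2 =>
  some ⟨Nat.div (Nat.sub P2 Q2) 137438953472, Nat.div (Nat.sub Q2 P2) 137438953472, e⟩

theorem sub_div_cast (P Q : ℕ) :
    |((P : ℝ) - Q) / (2 * DR) - ((((P - Q) / 137438953472 : ℕ) : ℝ) - (((Q - P) / 137438953472 : ℕ) : ℝ))| ≤ 1 := by
  have hD := DR_pos
  have hd : ((137438953472 : ℕ) : ℝ) = 2 * DR := by unfold DR; norm_num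
  rcases le_total P Q with h | h
  · have e1 : P - Q = 0 := Nat.sub_eq_zero_of_le h
    have k1 := ndiv_le (Q - P) 137438953472
    have k2 := lt_ndiv (Q - P) (b := 137438953472) (by norm_num)
    rw [hd, Nat.cast_sub h] at k1 k2
    rw [e1]
    have e2 : ((P : ℝ) - Q) / (2 * DR) = -(((Q : ℝ) - P) / (2 * DR)) := by ring
    rw [e2]
    simp only [Nat.zero_div, Nat.cast_zero, zero_sub]
    rw [abs_le]
    constructor <;> linarith only [k2, k1]
  · have e1 : Q - P = 0 := Nat.sub_eq_zero_of_le h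
    have k1 := ndiv_le (P - Q) 137438953472
    have k2 := lt_ndiv (P - Q) (b := 137438953472) (by norm_num)
    rw [hd, Nat.cast_sub h] at k1 k2
    rw [e1]
    simp only [Nat.zero_div, Nat.cast_zero, sub_zero]
    rw [abs_le]
    constructor <;> linarith only [k1, k2]

theorem uP_spec {p m : ℕ} {r0 r1 r2 : ℕ × ℕ} {e : ℕ} {R : R3} (hp : 0 < p)
    (hn : ((p : ℝ) / DR) ^ 2 + ((m : ℝ) / DR) ^ 2 ≤ 1 / 2)
    (h0 : atN (m * 68719476736 / p) = some r0)
    (h1 : atN (m * 68719476736 / (68719476736 + p)) = some r1)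
    (h2 : atN (m * 68719476736 / (68719476736 - p)) = some r2)
    (h : uP p m r0 r1 r2 (logM (p * p + m * m)) (logM ((68719476736 + p) * (68719476736 + p) + m * m))
      (logM ((68719476736 - p) * (68719476736 - p) + m * m)) e = some R) :
    |g0 (p / DR) (m / DR) * DR - ((R.p : ℝ) - R.q)| ≤ 106 ∧ R.e = e := by
  have hD := DR_pos
  have hDc : (68719476736 : ℝ) = DR := by unfold DR; norm_num
  unfold uP at h
  simp only [frc_eq] at h
  have h := Option.some.inj h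
  set X := Nat.div (Nat.mul p p) 68719476736 with hX
  set T := Nat.div (Nat.mul m m) 68719476736 with hT
  set X2 := Nat.div (Nat.mul X X) 68719476736 with hX2
  set XT := Nat.div (Nat.mul X T) 68719476736 with hXT
  set T2 := Nat.div (Nat.mul T T) 68719476736 with hT2
  have hpol := pol_spec (p := p) (m := m) hX hT hX2 hXT hT2 hn
  set ps := pPs X X2 T2
  set ng := pNg T XT X2 T2
  set a := logM (p * p + m * m) with ha
  set b := logM ((68719476736 + p) * (68719476736 + p) + m * m) with hb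
  set c := logM ((68719476736 - p) * (68719476736 - p) + m * m) with hc
  set x := (p : ℝ) / DR with hx
  set y := (m : ℝ) / DR with hy
  have hpx : (p : ℝ) = x * DR := by rw [hx]; field_simp
  have hmy : (m : ℝ) = y * DR := by rw [hy]; field_simp
  have hp0 : (0 : ℝ) < p := by exact_mod_cast hp
  have hx0 : 0 < x := by positivity
  have hy0 : 0 ≤ y := by positivity
  have hx1 : x ≤ 3 / 4 := by nlinarith only [hDc, hn, hpx, hx0, sq_nonneg y]
  have hy1 : y ≤ 3 / 4 := by nlinarith only [hDc, hn, hmy, hx0, hy0, hx1, sq_nonneg x]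
  have hpD : (p : ℝ) ≤ 3 / 4 * DR := by rw [hpx]; nlinarith only [hD, hx1]
  have hmD : (m : ℝ) ≤ 3 / 4 * DR := by rw [hmy]; nlinarith only [hD, hy1]
  have hpN : p < 68719476736 := by
    have : (p : ℝ) < 68719476736 := by rw [hDc]; nlinarith only [hDc, hx0, hx1, hpD]
    exact_mod_cast this
  have hmN : m < 68719476736 := by
    have : (m : ℝ) < 68719476736 := by rw [hDc]; nlinarith only [hDc, hx0, hx1, hmD]
    exact_mod_cast this
  have hsub : ((68719476736 - p : ℕ) : ℝ) = DR - p := by rw [Nat.cast_sub hpN.le, DN_cast]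
  -- logarithms
  have B200 : (2 : ℕ) ^ 200 = 1606938044258990275541962092341162602522202993782792835301376 := by norm_num
  have la := log_q (N := p * p + m * m) (by positivity) (by
    rw [B200]
    have : p * p ≤ 68719476736 * 68719476736 := Nat.mul_le_mul hpN.le hpN.le
    have : m * m ≤ 68719476736 * 68719476736 := Nat.mul_le_mul hmN.le hmN.le
    omega)
  have lb := log_q (N := (68719476736 + p) * (68719476736 + p) + m * m) (by positivity) (by
    rw [B200]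
    have : (68719476736 + p) * (68719476736 + p) ≤ 137438953472 * 137438953472 :=
      Nat.mul_le_mul (by omega) (by omega)
    have : m * m ≤ 68719476736 * 68719476736 := Nat.mul_le_mul hmN.le hmN.le
    omega)
  have lc := log_q (N := (68719476736 - p) * (68719476736 - p) + m * m)
    (by have : 0 < 68719476736 - p := by omega
        positivity) (by
    rw [B200]
    have : (68719476736 - p) * (68719476736 - p) ≤ 68719476736 * 68719476736 :=
      Nat.mul_le_mul (by omega) (by omega)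
    have : m * m ≤ 68719476736 * 68719476736 := Nat.mul_le_mul hmN.le hmN.le
    omega)
  rw [← ha] at la
  rw [← hb] at lb
  rw [← hc] at lc
  have ea : ((p * p + m * m : ℕ) : ℝ) / DR ^ 2 = x ^ 2 + y ^ 2 := by
    push_cast; rw [hx, hy]; field_simp
  have eb : (((68719476736 + p) * (68719476736 + p) + m * m : ℕ) : ℝ) / DR ^ 2 =
      (1 + x) ^ 2 + y ^ 2 := by
    push_cast; rw [hDc, hx, hy]; field_simp
  have ec : (((68719476736 - p) * (68719476736 - p) + m * m : ℕ) : ℝ) / DR ^ 2 =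
      (1 - x) ^ 2 + y ^ 2 := by
    rw [Nat.cast_add, Nat.cast_mul, hsub, Nat.cast_mul, hx, hy]; field_simp
  rw [ea] at la
  rw [eb] at lb
  rw [ec] at lc
  -- arctangents
  have t0 := atan_q hp h0
  have t1 := atan_q (k := 68719476736 + p) (by omega) h1
  have t2 := atan_q (k := 68719476736 - p) (by omega) h2
  have e0 : (m : ℝ) / p = y / x := by rw [hx, hy]; field_simp
  have e1 : (m : ℝ) / ((68719476736 + p : ℕ) : ℝ) = y / (1 + x) := by
    push_cast; rw [hDc, hx, hy]; field_simp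
  have e2 : (m : ℝ) / ((68719476736 - p : ℕ) : ℝ) = y / (1 - x) := by
    rw [hsub, hx, hy]
    have : DR - (p : ℝ) ≠ 0 := by nlinarith only [hDc, hn, hx0, hpD]
    have : 1 - (p : ℝ) / DR ≠ 0 := by rw [sub_ne_zero]; intro hh; rw [eq_div_iff hD.ne'] at hh; apply this; linarith only [hDc, hx0, hx1, hpD, hh]
    field_simp
  rw [e0] at t0
  rw [e1] at t1
  rw [e2] at t2
  -- the constant
  have hc0 : |(Real.log (2 * Real.pi) - 3) * DR + 79860479899| ≤ 71 := by
    have k := log_two_pi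
    have k2 := mul_le_mul_of_nonneg_right k hD.le
    rw [← abs_of_pos hD, ← abs_mul, abs_of_pos hD] at k2
    have k3 := abs_le.1 k2
    rw [← hDc] at k3 ⊢
    rw [abs_le]
    norm_num at k3
    constructor <;> linarith only [hx0, hx1, k3, k3.1, k3.2]
  set La := Real.log (x ^ 2 + y ^ 2)
  set Lb := Real.log ((1 + x) ^ 2 + y ^ 2)
  set Lc := Real.log ((1 - x) ^ 2 + y ^ 2)
  set A0 := Real.arctan (y / x)
  set A1 := Real.arctan (y / (1 + x))
  set A2 := Real.arctan (y / (1 - x))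
  set K := Real.log (2 * Real.pi) - 3
  -- the difference
  set P2 := Nat.add (Nat.add (Nat.add (Nat.mul p a.1) (Nat.mul (Nat.add 68719476736 p) b.1))
    (Nat.mul (Nat.sub 68719476736 p) (Nat.add c.2 1714777615768)))
    (Nat.mul 2 (Nat.add (Nat.mul m (Nat.add (Nat.add r0.2 r1.2) r2.1)) (Nat.mul p ng))) with hP2
  set Q2 := Nat.add (Nat.add (Nat.add (Nat.mul p (Nat.add a.2 1714777615768))
    (Nat.mul (Nat.add 68719476736 p) (Nat.add b.2 1714777615768))) (Nat.mul (Nat.sub 68719476736 p) c.1))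
    (Nat.mul 2 (Nat.add (Nat.mul m (Nat.add (Nat.add r0.1 r1.1) r2.2))
      (Nat.mul p (Nat.add ps 79860479899)))) with hQ2
  have hP2r : (P2 : ℝ) = p * a.1 + (DR + p) * b.1 + (DR - p) * (c.2 + 1714777615768) +
      2 * (m * (r0.2 + r1.2 + r2.1) + p * ng) := by
    have : P2 = p * a.1 + (68719476736 + p) * b.1 + (68719476736 - p) * (c.2 + 1714777615768) +
      2 * (m * (r0.2 + r1.2 + r2.1) + p * ng) := rfl
    rw [this]
    push_cast [hsub]
    rw [hDc]
  have hQ2r : (Q2 : ℝ) = p * (a.2 + 1714777615768) + (DR + p) * (b.2 + 1714777615768) +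
      (DR - p) * c.1 + 2 * (m * (r0.1 + r1.1 + r2.2) + p * (ps + 79860479899)) := by
    have : Q2 = p * (a.2 + 1714777615768) + (68719476736 + p) * (b.2 + 1714777615768) +
      (68719476736 - p) * c.1 + 2 * (m * (r0.1 + r1.1 + r2.2) + p * (ps + 79860479899)) := rfl
    rw [this]
    push_cast [hsub]
    rw [hDc]
  have key : g0 x y * DR * (2 * DR) - ((P2 : ℝ) - Q2) =
      p * (La * DR - ((a.1 : ℝ) - a.2 - 1714777615768)) +
      (DR + p) * (Lb * DR - ((b.1 : ℝ) - b.2 - 1714777615768)) -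
      (DR - p) * (Lc * DR - ((c.1 : ℝ) - c.2 - 1714777615768)) -
      2 * m * ((A0 * DR - ((r0.1 : ℝ) - r0.2)) + (A1 * DR - ((r1.1 : ℝ) - r1.2)) -
        (A2 * DR - ((r2.1 : ℝ) - r2.2))) +
      2 * p * (K * DR + 79860479899) - 2 * p * (pol x y * DR - ((ps : ℝ) - ng)) := by
    rw [hP2r, hQ2r]
    have eg : g0 x y = x * (La / 2) - y * A0 + ((1 + x) * (Lb / 2) - y * A1) -
        ((1 - x) * (Lc / 2) - y * A2) + K * x - x * pol x y := rfl
    rw [eg, hpx, hmy]
    ring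
  have s1 := abs_le.1 la
  have s2 := abs_le.1 lb
  have s3 := abs_le.1 lc
  have s4 := abs_le.1 t0
  have s5 := abs_le.1 t1
  have s6 := abs_le.1 t2
  have s7 := abs_le.1 hc0
  have s8 := abs_le.1 hpol
  have hm0 : (0 : ℝ) ≤ m := Nat.cast_nonneg m
  have hDp : 0 ≤ DR - p := by linarith only [hDc, hx0, hx1, hpD]
  have bnd : |g0 x y * DR * (2 * DR) - ((P2 : ℝ) - Q2)| ≤ 210 * DR := by
    rw [key]
    set v1 := La * DR - ((a.1 : ℝ) - a.2 - 1714777615768)
    set v2 := Lb * DR - ((b.1 : ℝ) - b.2 - 1714777615768)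
    set v3 := Lc * DR - ((c.1 : ℝ) - c.2 - 1714777615768)
    set v4 := A0 * DR - ((r0.1 : ℝ) - r0.2)
    set v5 := A1 * DR - ((r1.1 : ℝ) - r1.2)
    set v6 := A2 * DR - ((r2.1 : ℝ) - r2.2)
    set v7 := K * DR + 79860479899
    set v8 := pol x y * DR - ((ps : ℝ) - ng)
    have w1 : |(p : ℝ) * v1| ≤ p * 12 := by
      rw [abs_mul, abs_of_pos hp0]; exact mul_le_mul_of_nonneg_left la hp0.le
    have w2 : |(DR + p) * v2| ≤ (DR + p) * 12 := by
      rw [abs_mul, abs_of_pos (by linarith only [hDc, hp0, hx0, hx1] : (0 : ℝ) < DR + p)]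
      exact mul_le_mul_of_nonneg_left lb (by linarith only [hDc, hp0, hx0, hx1])
    have w3 : |(DR - p) * v3| ≤ (DR - p) * 12 := by
      rw [abs_mul, abs_of_nonneg hDp]; exact mul_le_mul_of_nonneg_left lc hDp
    have w4 : |2 * (m : ℝ) * (v4 + v5 - v6)| ≤ 2 * m * 42 := by
      rw [abs_mul, abs_of_nonneg (by linarith : (0 : ℝ) ≤ 2 * m)]
      apply mul_le_mul_of_nonneg_left _ (by linarith)
      rw [abs_le]; constructor <;> linarith only [s4, s5, s6]
    have w5 : |2 * (p : ℝ) * v7| ≤ 2 * p * 71 := by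
      rw [abs_mul, abs_of_pos (by linarith only [hp0] : (0 : ℝ) < 2 * p)]
      exact mul_le_mul_of_nonneg_left hc0 (by linarith only [hp0])
    have w6 : |2 * (p : ℝ) * v8| ≤ 2 * p * 2 := by
      rw [abs_mul, abs_of_pos (by linarith only [hp0] : (0 : ℝ) < 2 * p)]
      exact mul_le_mul_of_nonneg_left hpol (by linarith only [hp0])
    have u1 := abs_le.1 w1
    have u2 := abs_le.1 w2
    have u3 := abs_le.1 w3
    have u4 := abs_le.1 w4
    have u5 := abs_le.1 w5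
    have u6 := abs_le.1 w6
    rw [abs_le]
    constructor <;> linarith only [hDc, hx0, hx1, hpD, hmD, u1, u2, u3, u4, u5, u6, u1.1, u1.2, u2.1, u2.2, u3.1, u3.2, u4.1, u4.2, u5.1, u5.2, u6.1, u6.2]
  have fl := sub_div_cast P2 Q2
  have hR : (R.p : ℝ) - R.q = (((P2 - Q2) / 137438953472 : ℕ) : ℝ) - (((Q2 - P2) / 137438953472 : ℕ) : ℝ) := by
    rw [← h]; rfl
  refine ⟨?_, by rw [← h]⟩
  rw [hR]
  have hdd : |g0 x y * DR - ((P2 : ℝ) - Q2) / (2 * DR)| ≤ 105 := by
    have e : g0 x y * DR - ((P2 : ℝ) - Q2) / (2 * DR) =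
        (g0 x y * DR * (2 * DR) - ((P2 : ℝ) - Q2)) / (2 * DR) := by field_simp
    rw [e, abs_div, abs_of_pos (by positivity : (0 : ℝ) < 2 * DR), div_le_iff₀ (by positivity)]
    linarith only [bnd]
  have := abs_add_le (g0 x y * DR - ((P2 : ℝ) - Q2) / (2 * DR)) (((P2 : ℝ) - Q2) / (2 * DR) -
    ((((P2 - Q2) / 137438953472 : ℕ) : ℝ) - (((Q2 - P2) / 137438953472 : ℕ) : ℝ)))
  rw [sub_add_sub_cancel] at this
  linarith only [fl, hdd, this]

end Pool.Agent.Work.NumUs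

end

section

/-!
# Numerics of `UU`: the value at a point, part 3
-/

namespace Pool.Agent.Work.NumUs

open NumIs

theorem nadd_eq (a b : ℕ) : Nat.add a b = a + b := Eq.trans rfl rfl
theorem nmul_eq (a b : ℕ) : Nat.mul a b = a * b := Eq.trans rfl rfl
theorem nsub_eq (a b : ℕ) : Nat.sub a b = a - b := Eq.trans rfl rfl
theorem ndiv_eq' (a b : ℕ) : Nat.div a b = a / b := Eq.trans rfl rfl

/-- Lipschitz bound in `t` -/
theorem uu_lip {x t y : ℝ} (h0 : 0 < x) (h1 : x < 1) : |uu x t - uu x y| ≤ 2 * |t - y| := by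
  have h := norm_image_sub_le_of_norm_deriv_le_segment_01'
    (f := fun τ : ℝ => uu (x + τ * 0) (y + τ * (t - y)))
    (f' := fun τ => 0 * NumIs.lnA (x + τ * 0) (y + τ * (t - y)) -
      (t - y) * NumIs.lnB (x + τ * 0) (y + τ * (t - y))) (C := 2 * |t - y|)
    (fun τ _ => (uu_line (by simpa using h0) (by simpa using h1)).hasDerivWithinAt)
    (fun τ _ => by
      rw [Real.norm_eq_abs, zero_mul, zero_sub, abs_neg, abs_mul, mul_comm]
      apply mul_le_mul_of_nonneg_right _ (abs_nonneg _)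
      have h3 := Real.pi_lt_d2
      have : |NumIs.lnB (x + τ * 0) (y + τ * (t - y))| ≤ Real.pi / 2 := by
        unfold NumIs.lnB
        rw [abs_le]
        exact ⟨(Real.neg_pi_div_two_lt_arctan _).le, (Real.arctan_lt_pi_div_two _).le⟩
      linarith only [h0, h1, h3, this])
  simpa [Real.norm_eq_abs] using h

theorem w1_aux {u s D n k : ℝ} (hD : 0 < D) (hD2 : D ≤ 69 * 10 ^ 9)
    (v1 : |u| ≤ 1 / 10260 * s + 1 / 10 ^ 9) (hs : s * D ≤ n) (hk : n / 10260 < k + 1) :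
    |u * D| ≤ k + 1 + 69 := by
  rw [abs_mul, abs_of_pos hD]
  refine (mul_le_mul_of_nonneg_right v1 hD.le).trans ?_
  have : 1 / 10 ^ 9 * D ≤ 69 := by
    rw [div_mul_eq_mul_div, one_mul, div_le_iff₀ (by norm_num)]; exact hD2
  rw [add_mul]
  linarith only [hD2, hs, hk]

theorem w0_aux {u v y t m D : ℝ} (hD : 0 < D) (h : |u - v| ≤ 2 * |t - y|) (hm : y * D = m)
    (ht : |t * D - m| ≤ 1) : |(u - v) * D| ≤ 2 := by
  rw [abs_mul, abs_of_pos hD]
  refine (mul_le_mul_of_nonneg_right h hD.le).trans ?_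
  have e : |t - y| * D = |t * D - m| := by
    rw [← hm, ← sub_mul, abs_mul, abs_of_pos hD]
  rw [mul_assoc, e]
  linarith

theorem w2_aux {a b c D k r : ℝ} (w0 : |(a - b) * D| ≤ 2) (w1 : |(b - c) * D| ≤ k + 1 + 69)
    (v2 : |c * D - r| ≤ 106) : |a * D - r| ≤ k + 180 := by
  have e : a * D - r = (a - b) * D + (b - c) * D + (c * D - r) := by ring
  rw [e]
  refine (abs_add_three _ _ _).trans ?_
  linarith only [w0, w1, v2]

/-- bind for options -/
def ob {α β : Type} (o : Option α) (k : α → Option β) : Option β := match o with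
  | none => none
  | some a => k a

theorem ob_some {α β : Type} {o : Option α} {k : α → Option β} {r : β} (h : ob o k = some r) :
    ∃ a, o = some a ∧ k a = some r := by
  cases o with
  | none => exact absurd h (by simp [ob])
  | some a => exact ⟨a, rfl, h⟩

theorem cond_some {α : Type} {b : Bool} {o : Option α} {r : α} (h : cond b o none = some r) :
    b = true ∧ o = some r := by
  cases b with
  | false => exact absurd h (by simp)
  | true => exact ⟨rfl, h⟩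

/-- value at `x = p / D`, `t = (m ± 1) / D` -/
def uC (p m : ℕ) : Option R3 :=
  let n2 := Nat.add (Nat.div (Nat.add (Nat.mul p p) (Nat.mul (Nat.add m 1) (Nat.add m 1))) 68719476736) 1
  let n4 := Nat.add (Nat.div (Nat.mul n2 n2) 68719476736) 1
  let n8 := Nat.add (Nat.div (Nat.mul n4 n4) 68719476736) 1
  cond (Nat.ble n2 34359738368)
    (ob (atN (Nat.div (Nat.mul m 68719476736) p)) fun r0 =>
      ob (atN (Nat.div (Nat.mul m 68719476736) (Nat.add 68719476736 p))) fun r1 =>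
        ob (atN (Nat.div (Nat.mul m 68719476736) (Nat.sub 68719476736 p))) fun r2 =>
          uP p m r0 r1 r2 (logM (Nat.add (Nat.mul p p) (Nat.mul m m)))
            (logM (Nat.add (Nat.mul (Nat.add 68719476736 p) (Nat.add 68719476736 p)) (Nat.mul m m)))
            (logM (Nat.add (Nat.mul (Nat.sub 68719476736 p) (Nat.sub 68719476736 p)) (Nat.mul m m)))
            (Nat.add (Nat.div n8 10260) 180)) none

theorem uC_spec {p m : ℕ} {t : ℝ} {r : R3} (h : uC p m = some r) (hp : 0 < p)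
    (ht : |t * DR - m| ≤ 1) (ht0 : 0 ≤ t) : r.Good (uu ((p : ℝ) / DR) t) := by
  have hD := DR_pos
  unfold uC at h
  simp only [nadd_eq, nmul_eq, nsub_eq, ndiv_eq'] at h
  set n2 := (p * p + (m + 1) * (m + 1)) / 68719476736 + 1 with hn2
  set n4 := n2 * n2 / 68719476736 + 1 with hn4
  set n8 := n4 * n4 / 68719476736 + 1 with hn8
  clear_value n8 n4 n2
  obtain ⟨h1, h⟩ := cond_some h
  obtain ⟨r0, a0, h⟩ := ob_some h
  obtain ⟨r1, a1, h⟩ := ob_some h
  obtain ⟨r2, a2, h⟩ := ob_some h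
  set x := (p : ℝ) / DR with hx
  have hpx : x * DR = p := by rw [hx]; field_simp
  have hx0 : 0 < x := by rw [hx]; have : (0 : ℝ) < p := by exact_mod_cast hp
                         positivity
  -- the bound for the square of the norm
  have k1 := lt_ndiv (p * p + (m + 1) * (m + 1)) (b := 68719476736) (by norm_num)
  rw [DN_cast] at k1
  have en2 : (n2 : ℝ) = (((p * p + (m + 1) * (m + 1)) / 68719476736 : ℕ) : ℝ) + 1 := by
    rw [hn2, Nat.cast_add, Nat.cast_one]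
  rw [← en2] at k1
  set y := (m : ℝ) / DR with hy
  have hmy : y * DR = m := by rw [hy]; field_simp
  have hy0 : 0 ≤ y := by positivity
  have hN : (x ^ 2 + y ^ 2) * DR ≤ n2 := by
    have hm0 : (0 : ℝ) ≤ m := Nat.cast_nonneg m
    have h3 : (y * DR) ^ 2 ≤ ((m : ℝ) + 1) ^ 2 := by
      rw [hmy]
      gcongr
      linarith
    have h4 : (x ^ 2 + y ^ 2) * DR * DR ≤ (p : ℝ) * p + (m + 1) * (m + 1) := by
      have : (x ^ 2 + y ^ 2) * DR * DR = (x * DR) ^ 2 + (y * DR) ^ 2 := by ring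
      rw [this, hpx]
      nlinarith only [h3]
    have h5 : (x ^ 2 + y ^ 2) * DR ≤ ((p : ℝ) * p + (m + 1) * (m + 1)) / DR := by
      rw [le_div_iff₀ hD]; exact h4
    push_cast at k1
    linarith only [h5, k1]
  have hble : (n2 : ℝ) ≤ 34359738368 := by exact_mod_cast Nat.le_of_ble_eq_true h1
  have hDR : (DR : ℝ) = 68719476736 := by unfold DR; norm_num
  have hn : x ^ 2 + y ^ 2 ≤ 1 / 2 := by
    have : (x ^ 2 + y ^ 2) * DR ≤ 1 / 2 * DR := by rw [hDR] at hN ⊢; linarith only [hN, hble]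
    exact le_of_mul_le_mul_right this hD
  have hs0 : 0 ≤ x ^ 2 + y ^ 2 := by positivity
  have k2 := lt_ndiv (n2 * n2) (b := 68719476736) (by norm_num)
  rw [DN_cast] at k2
  have en4 : (n4 : ℝ) = (((n2 * n2) / 68719476736 : ℕ) : ℝ) + 1 := by
    rw [hn4, Nat.cast_add, Nat.cast_one]
  rw [← en4] at k2
  have hN4 : (x ^ 2 + y ^ 2) ^ 2 * DR ≤ n4 := by
    have : (x ^ 2 + y ^ 2) ^ 2 * DR = ((x ^ 2 + y ^ 2) * DR) ^ 2 / DR := by field_simp
    rw [this]
    refine le_trans ?_ k2.le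
    push_cast
    rw [← pow_two]
    gcongr
  have k3 := lt_ndiv (n4 * n4) (b := 68719476736) (by norm_num)
  rw [DN_cast] at k3
  have en8 : (n8 : ℝ) = (((n4 * n4) / 68719476736 : ℕ) : ℝ) + 1 := by
    rw [hn8, Nat.cast_add, Nat.cast_one]
  rw [← en8] at k3
  have hN8 : (x ^ 2 + y ^ 2) ^ 4 * DR ≤ n8 := by
    have : (x ^ 2 + y ^ 2) ^ 4 * DR = ((x ^ 2 + y ^ 2) ^ 2 * DR) ^ 2 / DR := by field_simp
    rw [this]
    refine le_trans ?_ k3.le
    push_cast
    rw [← pow_two]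
    gcongr
  have k4 := lt_ndiv n8 (b := 10260) (by norm_num)
  -- evaluation
  have hx1 : x < 1 := by nlinarith only [hD, hpx, hx0, hN, hble, hDR, sq_nonneg y]
  have v1 := abs_uu_sub_g0 (t := y) hx0 hx1 hn
  obtain ⟨v2, v3⟩ := uP_spec hp hn a0 a1 a2 h
  have v4 := uu_lip (t := t) (y := y) hx0 hx1
  change |uu x t * DR - ((r.p : ℝ) - r.q)| ≤ (r.e : ℝ)
  have hre : (r.e : ℝ) = ((n8 / 10260 : ℕ) : ℝ) + 180 := by
    rw [v3, Nat.cast_add, Nat.cast_ofNat]
  rw [hre]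
  have w0 := w0_aux hD v4 hmy ht
  have w1 := w1_aux (k := ((n8 / 10260 : ℕ) : ℝ)) hD (by rw [hDR]; norm_num) v1 hN8
    (by push_cast at k4; exact k4)
  exact w2_aux w0 w1 v2

end Pool.Agent.Work.NumUs

end
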